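import Pool.Agent.Helper63.P705.NUM.GT
import Pool.Agent.Helper63.P705.NUM.Fun

/-!
# MP_705522_gt: kernel check of the table, part 0
-/

set_option autoImplicit false

namespace Pool.Agent.Helper56.P705

open Pool.Agent.Helper63.P705

theorem t0 : Nat.beq (gtab 0 512) GT0 = true := by decide +kernel

theorem t1 : Nat.beq (gtab 512 512) GT1 = true := by decide +kernel

theorem t2 : Nat.beq (gtab 1024 512) GT2 = true := by decide +kernel

theorem t3 : Nat.beq (gtab 1536 512) GT3 = true := by decide +kernel

theorem t4 : Nat.beq (gtab 2048 512) GT4 = true := by decide +kernel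

theorem t5 : Nat.beq (gtab 2560 512) GT5 = true := by decide +kernel

theorem t6 : Nat.beq (gtab 3072 512) GT6 = true := by decide +kernel

theorem t7 : Nat.beq (gtab 3584 512) GT7 = true := by decide +kernel

end Pool.Agent.Helper56.P705
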