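import Pool.Agent.Helper63.P705.NUM.GT
import Pool.Agent.Helper63.P705.NUM.Fun

/-!
# MP_705522_gt: kernel check of the table, part 1
-/

set_option autoImplicit false

namespace Pool.Agent.Helper56.P705

open Pool.Agent.Helper63.P705

theorem t8 : Nat.beq (gtab 4096 512) GT8 = true := by decide +kernel

theorem t9 : Nat.beq (gtab 4608 512) GT9 = true := by decide +kernel

theorem t10 : Nat.beq (gtab 5120 512) GT10 = true := by decide +kernel

theorem t11 : Nat.beq (gtab 5632 512) GT11 = true := by decide +kernel

theorem t12 : Nat.beq (gtab 6144 512) GT12 = true := by decide +kernel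

theorem t13 : Nat.beq (gtab 6656 512) GT13 = true := by decide +kernel

theorem t14 : Nat.beq (gtab 7168 512) GT14 = true := by decide +kernel

theorem t15 : Nat.beq (gtab 7680 512) GT15 = true := by decide +kernel

end Pool.Agent.Helper56.P705
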