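import Pool.Agent.Helper63.P705.NUM.Goals
import Pool.Agent.Helper56.P705.T0
import Pool.Agent.Helper56.P705.T1

/-!
# MP_705522_gt: the table `GT` (packet NUM-N3)
-/

set_option autoImplicit false

namespace Pool.Agent.Helper56.P705

open Pool.Agent.Helper63.P705

/-- The packed sum of `n` entries. -/
def S (r0 n : ℕ) : ℕ := ∑ k ∈ Finset.range n, gent (r0 + k) * 2 ^ (128 * k)

theorem lp_gent (r0 n : ℕ) : ∀ a : ℕ,
    lp n (fun i T => Nat.add (Nat.shiftLeft T 128) (gent (Nat.add r0 i))) a =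
      a * 2 ^ (128 * n) + S r0 n := by
  induction n with
  | zero =>
    intro a
    rw [lp_zero]
    simp [S]
  | succ n ih =>
    intro a
    rw [lp_succ, ih]
    have h1 : Nat.add (Nat.shiftLeft a 128) (gent (Nat.add r0 n)) =
        a * 2 ^ 128 + gent (r0 + n) := by
      show a <<< 128 + gent (r0 + n) = _
      rw [Nat.shiftLeft_eq]
    have h2 : S r0 (n + 1) = S r0 n + gent (r0 + n) * 2 ^ (128 * n) := by
      unfold S
      rw [Finset.sum_range_succ]
    rw [h1, h2, Nat.mul_succ 128 n, pow_add]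
    generalize (2 : ℕ) ^ (128 * n) = X
    generalize (2 : ℕ) ^ 128 = Y
    ring

theorem gtab_eq (r0 n : ℕ) : gtab r0 n = S r0 n := by
  unfold gtab
  rw [lp_gent, zero_mul, zero_add]

theorem S_add (r0 m n : ℕ) : S r0 (m + n) = S r0 m + 2 ^ (128 * m) * S (r0 + m) n := by
  unfold S
  rw [Finset.sum_range_add, Finset.mul_sum]
  congr 1
  refine Finset.sum_congr rfl fun k _ => ?_
  rw [mul_add, pow_add, add_assoc]
  generalize (2 : ℕ) ^ (128 * m) = X
  generalize (2 : ℕ) ^ (128 * k) = Y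
  ring

theorem sl (a k b : ℕ) : Nat.add (Nat.shiftLeft a k) b = a * 2 ^ k + b := by
  show a <<< k + b = _
  rw [Nat.shiftLeft_eq]

theorem step {r0 r1 n m T G : ℕ} (hr : r0 + 512 = r1) (hn : 512 + n = m) (hT : T = S r1 n)
    (hG : G = S r0 512) : Nat.add (Nat.shiftLeft T 65536) G = S r0 m := by
  refine (sl T 65536 G).trans ?_
  have h0 : (65536 : ℕ) = 128 * 512 := by norm_num
  have h1 := S_add r0 512 n
  rw [h0, hT, hG, ← hn, h1, ← hr]
  generalize (2 : ℕ) ^ (128 * 512) = X
  ring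

theorem g0 : GT0 = S 0 512 := by
  rw [← gtab_eq]
  exact (Nat.eq_of_beq_eq_true t0).symm

theorem g1 : GT1 = S 512 512 := by
  rw [← gtab_eq]
  exact (Nat.eq_of_beq_eq_true t1).symm

theorem g2 : GT2 = S 1024 512 := by
  rw [← gtab_eq]
  exact (Nat.eq_of_beq_eq_true t2).symm

theorem g3 : GT3 = S 1536 512 := by
  rw [← gtab_eq]
  exact (Nat.eq_of_beq_eq_true t3).symm

theorem g4 : GT4 = S 2048 512 := by
  rw [← gtab_eq]
  exact (Nat.eq_of_beq_eq_true t4).symm

theorem g5 : GT5 = S 2560 512 := by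
  rw [← gtab_eq]
  exact (Nat.eq_of_beq_eq_true t5).symm

theorem g6 : GT6 = S 3072 512 := by
  rw [← gtab_eq]
  exact (Nat.eq_of_beq_eq_true t6).symm

theorem g7 : GT7 = S 3584 512 := by
  rw [← gtab_eq]
  exact (Nat.eq_of_beq_eq_true t7).symm

theorem g8 : GT8 = S 4096 512 := by
  rw [← gtab_eq]
  exact (Nat.eq_of_beq_eq_true t8).symm

theorem g9 : GT9 = S 4608 512 := by
  rw [← gtab_eq]
  exact (Nat.eq_of_beq_eq_true t9).symm

theorem g10 : GT10 = S 5120 512 := by
  rw [← gtab_eq]
  exact (Nat.eq_of_beq_eq_true t10).symm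

theorem g11 : GT11 = S 5632 512 := by
  rw [← gtab_eq]
  exact (Nat.eq_of_beq_eq_true t11).symm

theorem g12 : GT12 = S 6144 512 := by
  rw [← gtab_eq]
  exact (Nat.eq_of_beq_eq_true t12).symm

theorem g13 : GT13 = S 6656 512 := by
  rw [← gtab_eq]
  exact (Nat.eq_of_beq_eq_true t13).symm

theorem g14 : GT14 = S 7168 512 := by
  rw [← gtab_eq]
  exact (Nat.eq_of_beq_eq_true t14).symm

theorem g15 : GT15 = S 7680 512 := by
  rw [← gtab_eq]
  exact (Nat.eq_of_beq_eq_true t15).symm

theorem gt_eq : GT = S 0 8192 := by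
  unfold GT
  exact step (r0 := 0) (r1 := 512) (n := 7680) (m := 8192) (by norm_num) (by norm_num)
    (step (r0 := 512) (r1 := 1024) (n := 7168) (m := 7680) (by norm_num) (by norm_num)
    (step (r0 := 1024) (r1 := 1536) (n := 6656) (m := 7168) (by norm_num) (by norm_num)
    (step (r0 := 1536) (r1 := 2048) (n := 6144) (m := 6656) (by norm_num) (by norm_num)
    (step (r0 := 2048) (r1 := 2560) (n := 5632) (m := 6144) (by norm_num) (by norm_num)
    (step (r0 := 2560) (r1 := 3072) (n := 5120) (m := 5632) (by norm_num) (by norm_num)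
    (step (r0 := 3072) (r1 := 3584) (n := 4608) (m := 5120) (by norm_num) (by norm_num)
    (step (r0 := 3584) (r1 := 4096) (n := 4096) (m := 4608) (by norm_num) (by norm_num)
    (step (r0 := 4096) (r1 := 4608) (n := 3584) (m := 4096) (by norm_num) (by norm_num)
    (step (r0 := 4608) (r1 := 5120) (n := 3072) (m := 3584) (by norm_num) (by norm_num)
    (step (r0 := 5120) (r1 := 5632) (n := 2560) (m := 3072) (by norm_num) (by norm_num)
    (step (r0 := 5632) (r1 := 6144) (n := 2048) (m := 2560) (by norm_num) (by norm_num)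
    (step (r0 := 6144) (r1 := 6656) (n := 1536) (m := 2048) (by norm_num) (by norm_num)
    (step (r0 := 6656) (r1 := 7168) (n := 1024) (m := 1536) (by norm_num) (by norm_num)
    (step (r0 := 7168) (r1 := 7680) (n := 512) (m := 1024) (by norm_num) (by norm_num) g15 g14) g13) g12) g11) g10) g9) g8) g7) g6) g5) g4) g3) g2) g1) g0

theorem n3 : N3 := by
  intro h r hr
  rw [gt_eq]
  have h1 := fld_sum 128 8192 gent (fun i hi => (h i hi).trans_le
    (Nat.pow_le_pow_right (by norm_num) (by norm_num))) r hr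
  have h2 : S 0 8192 = ∑ k ∈ Finset.range 8192, gent k * 2 ^ (128 * k) := by
    unfold S
    refine Finset.sum_congr rfl fun k _ => ?_
    rw [zero_add]
  rw [h2]
  exact h1

end Pool.Agent.Helper56.P705
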